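import Pool.Agent.helper15.XE.SpecC
import Pool.Agent.helper39.EC.CM0
import Pool.Agent.helper87.EC.CM1

/-! # Project XE (MP_5628fe_nt), row CM1 -/

set_option autoImplicit false

namespace Pool.Agent.XE

open Finset ArithmeticFunction
open Pool.Agent.EC (TL)

/-- the cell of a prime, mesh `H` -/
noncomputable def CM1_ce (H N q : ℕ) : ℕ := ⌊(H : ℝ) * Real.log q / (3 * Real.log N)⌋₊

theorem CM1_om_nonneg (b : Bool) (r : ℕ) : 0 ≤ om b r := by
  unfold om
  split_ifs <;> positivity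

theorem CM1_hX_pos (r : ℕ) : 0 < hX r := by
  unfold hX
  split_ifs <;> norm_num

theorem CM1_hX_le (r : ℕ) : hX r ≤ 232 := by
  unfold hX
  split_ifs <;> norm_num

theorem CM1_JX_sum {b : Bool} {r : ℕ} {j : Fin r → ℕ} (h3 : 3 ≤ r) (h5 : r ≤ 5) (hj : j ∈ JX b r) :
    ∑ i, j i + r < hX r := by
  unfold JX at hj
  rw [Finset.mem_filter, Fintype.mem_piFinset] at hj
  obtain ⟨h1, h2⟩ := hj
  have h4 := h1 ⟨1, by omega⟩
  have h6 := h2 ⟨1, by omega⟩
  rw [if_neg (by simp), Finset.mem_Ico] at h4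
  have h7 : 20 ≤ yX r := by
    unfold yX
    split_ifs <;> norm_num
  omega

theorem CM1_pX_pos {b : Bool} {r : ℕ} {j : Fin r → ℕ} (h3 : 3 ≤ r) (h5 : r ≤ 5) (hj : j ∈ JX b r) :
    0 < pX r (∑ i, j i) := by
  unfold pX
  have h1 := CM1_JX_sum h3 h5 hj
  have h2 : ((∑ i, j i : ℕ) : ℝ) + r < hX r := by exact_mod_cast h1
  have h4 : (0 : ℝ) < hX r := by exact_mod_cast CM1_hX_pos r
  apply div_pos h4
  linarith

theorem CM1_term_nonneg (N : ℕ) (hN : 2 ≤ N) (m : ℕ) (b : Bool) (r : ℕ) (h3 : 3 ≤ r) (h5 : r ≤ 5)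
    (j : Fin r → ℕ) (hj : j ∈ JX b r) :
    0 ≤ om b r * pX r (∑ i, j i) / (3 * Real.log N) * TL N (aX j) (bX j) m := by
  have hL : 0 < Real.log N := Real.log_pos (by exact_mod_cast hN)
  have h1 := CM1_om_nonneg b r
  have h2 := (CM1_pX_pos h3 h5 hj).le
  have h3 := Pool.Agent.EC.CM0_TL_nonneg N (aX j) (bX j) m
  positivity

theorem CM1_TS_ge (N : ℕ) (hN : 2 ≤ N) (m : ℕ) (b : Bool) (r : ℕ) (h3 : 3 ≤ r) (h5 : r ≤ 5) :
    ∑ j ∈ JX b r, om b r * pX r (∑ i, j i) / (3 * Real.log N) * TL N (aX j) (bX j) m ≤ TS N m := by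
  unfold TS
  have h1 : ∑ j ∈ JX b r, om b r * pX r (∑ i, j i) / (3 * Real.log N) * TL N (aX j) (bX j) m ≤
      ∑ r ∈ Icc 3 5, ∑ j ∈ JX b r, om b r * pX r (∑ i, j i) / (3 * Real.log N) *
        TL N (aX j) (bX j) m := by
    refine Finset.single_le_sum (f := fun r => ∑ j ∈ JX b r, om b r * pX r (∑ i, j i) /
      (3 * Real.log N) * TL N (aX j) (bX j) m) (fun r' hr' => ?_) (Finset.mem_Icc.mpr ⟨h3, h5⟩)
    exact Finset.sum_nonneg fun j hj => CM1_term_nonneg N hN m b r' (Finset.mem_Icc.mp hr').1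
      (Finset.mem_Icc.mp hr').2 j hj
  refine h1.trans ?_
  refine Finset.single_le_sum (f := fun b => ∑ r ∈ Icc 3 5, ∑ j ∈ JX b r, om b r *
      pX r (∑ i, j i) / (3 * Real.log N) * TL N (aX j) (bX j) m) (fun b' _ => ?_) (Finset.mem_univ b)
  exact Finset.sum_nonneg fun r' hr' => Finset.sum_nonneg fun j hj =>
    CM1_term_nonneg N hN m b' r' (Finset.mem_Icc.mp hr').1 (Finset.mem_Icc.mp hr').2 j hj

/-- the cells contain the prime -/
theorem CM1_cell (H N q : ℕ) (hH : 0 < H) (hN : 2 ≤ N) (hq : 1 ≤ q) :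
    (N : ℝ) ^ (3 * ((CM1_ce H N q : ℕ) : ℝ) / (H : ℝ)) ≤ q ∧
      (q : ℝ) < (N : ℝ) ^ (3 * (((CM1_ce H N q : ℕ) : ℝ) + 1) / (H : ℝ)) := by
  have hL : 0 < Real.log N := Real.log_pos (by exact_mod_cast hN)
  have hN0 : (0 : ℝ) < N := by positivity
  have hq0 : (0 : ℝ) < q := by exact_mod_cast hq
  have hH0 : (0 : ℝ) < H := by exact_mod_cast hH
  have hlq : 0 ≤ Real.log q := Real.log_nonneg (by exact_mod_cast hq)
  have h0 : 0 ≤ (H : ℝ) * Real.log q / (3 * Real.log N) := by positivity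
  have h1 := Nat.floor_le h0
  have h2 := Nat.lt_floor_add_one ((H : ℝ) * Real.log q / (3 * Real.log N))
  constructor
  · rw [Real.rpow_def_of_pos hN0, ← Real.le_log_iff_exp_le hq0]
    rw [le_div_iff₀ (by positivity)] at h1
    unfold CM1_ce
    rw [← mul_div_assoc, div_le_iff₀ hH0]
    linarith
  · rw [Real.rpow_def_of_pos hN0, ← Real.log_lt_iff_lt_exp hq0]
    rw [div_lt_iff₀ (by positivity)] at h2
    unfold CM1_ce
    rw [← mul_div_assoc, lt_div_iff₀ hH0]
    linarith

/-- a family of tuples of prime factors gives a lower bound of `TS` -/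
theorem CM1_sum (N a r : ℕ) (hN : 2 ≤ N) (ha : N ^ 3 < a) (hsq : Squarefree a) (hcard : #a.primeFactors = r + 1)
    (h3 : 3 ≤ r) (hr : r ≤ 5) (b : Bool) (T : Finset (Fin r ↪ a.primeFactors))
    (hJ : ∀ e ∈ T, (fun i => CM1_ce (hX r) N (e i : ℕ)) ∈ JX b r) :
    (#T : ℝ) * om b r ≤ TS N a := by
  classical
  refine le_trans ?_ (CM1_TS_ge N hN a b r h3 hr)
  have hL : 0 < Real.log N := Real.log_pos (by exact_mod_cast hN)
  have hN0 : (0 : ℝ) < N := by positivity
  have hHN : 0 < hX r := CM1_hX_pos r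
  have hH0 : (0 : ℝ) < hX r := by exact_mod_cast hHN
  let J : (Fin r ↪ a.primeFactors) → (Fin r → ℕ) := fun e i => CM1_ce (hX r) N (e i : ℕ)
  let φ : (Fin r ↪ a.primeFactors) ↪ (Fin r → ℕ) := ⟨fun e i => (e i : ℕ), fun e e' h => by
    ext i
    exact congrFun h i⟩
  have hTL : ∀ j ∈ JX b r, ∑ e ∈ T with J e = j,
      vonMangoldt (a / ∏ i, (e i : ℕ)) ≤ TL N (aX j) (bX j) a := by
    intro j _
    have h1 : ∑ e ∈ T with J e = j, vonMangoldt (a / ∏ i, (e i : ℕ)) =
        ∑ p ∈ (T.filter fun e => J e = j).map φ, vonMangoldt (a / ∏ i, p i) := by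
      rw [Finset.sum_map]
      rfl
    rw [h1]
    unfold TL
    refine Finset.sum_le_sum_of_subset_of_nonneg ?_ fun _ _ _ => vonMangoldt_nonneg
    intro p hp
    obtain ⟨e, he, rfl⟩ := Finset.mem_map.mp hp
    have he' : J e = j := (Finset.mem_filter.mp he).2
    refine Finset.mem_filter.mpr ⟨?_, ?_, ?_⟩
    · rw [Fintype.mem_piFinset]
      intro i
      exact (e i).2
    · intro i
      have hq1 : 1 ≤ (e i : ℕ) := (Nat.prime_of_mem_primeFactors (e i).2).one_le
      have h2 := CM1_cell (hX r) N (e i) hHN hN hq1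
      have h3 : j i = CM1_ce (hX r) N (e i) := by rw [← he']
      unfold aX bX
      rw [h3]
      exact h2
    · obtain ⟨P, _, hP⟩ := Pool.Agent.EC.CM0_rem a r hsq hcard a.primeFactors (Finset.Subset.refl _) e
      exact ⟨P, hP⟩
  have hterm : ∀ e ∈ T, om b r ≤ om b r * pX r (∑ i, J e i) / (3 * Real.log N) *
      vonMangoldt (a / ∏ i, (e i : ℕ)) := by
    intro e heT
    obtain ⟨P, hPm, hP⟩ := Pool.Agent.EC.CM0_rem a r hsq hcard a.primeFactors (Finset.Subset.refl _) e
    have hPp := Nat.prime_of_mem_primeFactors hPm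
    have hpos : ∀ i, 0 < (e i : ℕ) := fun i => (Nat.prime_of_mem_primeFactors (e i).2).pos
    have hprod : 0 < ∏ i, (e i : ℕ) := Finset.prod_pos fun i _ => hpos i
    have h1 : a / ∏ i, (e i : ℕ) = P := by
      have h2 : a / ∏ i, (e i : ℕ) = ((∏ i, (e i : ℕ)) * P) / ∏ i, (e i : ℕ) :=
        congrArg (fun z => z / ∏ i, (e i : ℕ)) hP
      rw [h2]
      exact Nat.mul_div_cancel_left P hprod
    have h1' : vonMangoldt (a / ∏ i, (e i : ℕ)) = Real.log P := by
      rw [h1]
      exact vonMangoldt_apply_prime hPp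
    rw [h1']
    have hlog : Real.log a = ∑ i, Real.log ((e i : ℕ) : ℝ) + Real.log P := by
      have h2 : Real.log a = Real.log (((∏ i, (e i : ℕ)) * P : ℕ) : ℝ) :=
        congrArg (fun z : ℕ => Real.log (z : ℝ)) hP
      rw [h2, Nat.cast_mul, Nat.cast_prod, Real.log_mul
        (Finset.prod_ne_zero_iff.mpr fun i _ => by exact_mod_cast (hpos i).ne') (by exact_mod_cast hPp.ne_zero)]
      rw [Real.log_prod (fun i _ => by exact_mod_cast (hpos i).ne')]
    have hloga : 3 * Real.log N ≤ Real.log a := by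
      have h3 : (3 : ℝ) * Real.log N = Real.log ((N : ℝ) ^ 3) := by
        rw [Real.log_pow]; norm_num
      rw [h3]
      apply Real.log_le_log (by positivity)
      exact_mod_cast ha.le
    have hle : ∑ i, Real.log ((e i : ℕ) : ℝ) ≤ 3 * Real.log N * ((∑ i, J e i : ℕ) + r) / (hX r : ℝ) := by
      have h5 : ∀ i, Real.log ((e i : ℕ) : ℝ) ≤ 3 * Real.log N * ((J e i : ℝ) + 1) / (hX r : ℝ) := by
        intro i
        have h2 := (CM1_cell (hX r) N (e i) hHN hN (hpos i)).2.le
        have hq0 : (0 : ℝ) < ((e i : ℕ) : ℝ) := by exact_mod_cast hpos i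
        have h6 := Real.log_le_log hq0 h2
        rw [Real.log_rpow hN0] at h6
        calc Real.log ((e i : ℕ) : ℝ) ≤ _ := h6
          _ = 3 * Real.log N * ((J e i : ℝ) + 1) / (hX r : ℝ) := by ring
      calc ∑ i, Real.log ((e i : ℕ) : ℝ) ≤ ∑ i, 3 * Real.log N * ((J e i : ℝ) + 1) / (hX r : ℝ) :=
            Finset.sum_le_sum fun i _ => h5 i
        _ = _ := by
            rw [← Finset.sum_div, ← Finset.mul_sum, Finset.sum_add_distrib]
            simp
    have hs : ∑ i, J e i + r < hX r := CM1_JX_sum h3 hr (hJ e heT)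
    have hs' : ((∑ i, J e i : ℕ) : ℝ) + r < hX r := by exact_mod_cast hs
    have hden : 0 < (hX r : ℝ) - ((∑ i, J e i : ℕ) : ℝ) - r := by linarith
    have hP1 : 3 * Real.log N * ((hX r : ℝ) - ((∑ i, J e i : ℕ) : ℝ) - r) / (hX r : ℝ) ≤ Real.log P := by
      have h7 : 3 * Real.log N * ((hX r : ℝ) - ((∑ i, J e i : ℕ) : ℝ) - r) / (hX r : ℝ) =
          3 * Real.log N - 3 * Real.log N * (((∑ i, J e i : ℕ) : ℝ) + r) / (hX r : ℝ) := by
        field_simp
        ring
      rw [h7]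
      linarith
    have hom0 := CM1_om_nonneg b r
    have h8 : 1 ≤ pX r (∑ i, J e i) / (3 * Real.log N) * Real.log P := by
      have h9 : pX r (∑ i, J e i) / (3 * Real.log N) *
          (3 * Real.log N * ((hX r : ℝ) - ((∑ i, J e i : ℕ) : ℝ) - r) / (hX r : ℝ)) = 1 := by
        unfold pX
        field_simp
      rw [← h9]
      refine mul_le_mul_of_nonneg_left hP1 ?_
      have := (CM1_pX_pos h3 hr (hJ e heT)).le
      positivity
    calc om b r = om b r * 1 := by rw [mul_one]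
      _ ≤ om b r * (pX r (∑ i, J e i) / (3 * Real.log N) * Real.log P) :=
          mul_le_mul_of_nonneg_left h8 hom0
      _ = _ := by ring
  calc (#T : ℝ) * om b r = ∑ e ∈ T, om b r := by
        rw [Finset.sum_const, nsmul_eq_mul]
    _ ≤ ∑ e ∈ T, om b r * pX r (∑ i, J e i) / (3 * Real.log N) *
          vonMangoldt (a / ∏ i, (e i : ℕ)) := Finset.sum_le_sum fun e he => hterm e he
    _ = ∑ j ∈ JX b r, ∑ e ∈ T with J e = j,
          om b r * pX r (∑ i, J e i) / (3 * Real.log N) *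
            vonMangoldt (a / ∏ i, (e i : ℕ)) :=
        (Finset.sum_fiberwise_of_maps_to (fun e he => hJ e he) _).symm
    _ ≤ ∑ j ∈ JX b r, om b r * pX r (∑ i, j i) / (3 * Real.log N) *
          TL N (aX j) (bX j) a := by
        refine Finset.sum_le_sum fun j hj => ?_
        have h1 : ∑ e ∈ T with J e = j,
            om b r * pX r (∑ i, J e i) / (3 * Real.log N) *
              vonMangoldt (a / ∏ i, (e i : ℕ)) =
            om b r * pX r (∑ i, j i) / (3 * Real.log N) *
              ∑ e ∈ T with J e = j, vonMangoldt (a / ∏ i, (e i : ℕ)) := by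
          rw [Finset.mul_sum]
          refine Finset.sum_congr rfl fun e he => ?_
          rw [(Finset.mem_filter.mp he).2]
        rw [h1]
        refine mul_le_mul_of_nonneg_left (hTL j hj) ?_
        have h2 := CM1_om_nonneg b r
        have h4 := (CM1_pX_pos h3 hr hj).le
        positivity

/-- CM1. -/
theorem CM1 : CM1_stmt := by
  classical
  refine ⟨3 ^ 78, fun N hN a q₀ ha1 ha2 hsq hq0 hz hy hq hk => ?_⟩
  have hN2 : 2 ≤ N := le_trans (by norm_num) hN
  have hL : 0 < Real.log N := Real.log_pos (by exact_mod_cast hN2)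
  have hN0 : (0 : ℝ) < N := by
    have : 0 < N := by omega
    exact_mod_cast this
  have h3p : 0 < Real.log 3 := Real.log_pos (by norm_num)
  have hlg : 78 * Real.log 3 ≤ Real.log N := by
    have h1 : (78 : ℝ) * Real.log 3 = Real.log ((3 : ℝ) ^ 78) := by
      rw [Real.log_pow]; norm_num
    rw [h1]
    apply Real.log_le_log (by positivity)
    exact_mod_cast hN
  have hpos : ∀ q ∈ a.primeFactors, 0 < q := fun q h => (Nat.prime_of_mem_primeFactors h).pos
  have hone : ∀ q ∈ a.primeFactors, 1 ≤ q := fun q h => (Nat.prime_of_mem_primeFactors h).one_le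
  have hlnn : ∀ q ∈ a.primeFactors, 0 ≤ Real.log q := fun q h =>
    Real.log_nonneg (by exact_mod_cast hone q h)
  have hay : ay = 519375 / 1000000 := by
    unfold ay
    norm_num
  have haz : az = 1558125 / 10000000 := by
    unfold az
    norm_num
  set W := a.primeFactors.erase q₀ with hW
  have hWS : W ⊆ a.primeFactors := Finset.erase_subset _ _
  have hlq : ∀ q ∈ W, ay * Real.log N ≤ Real.log q := by
    intro q h
    have h1 := Real.log_le_log (Real.rpow_pos_of_pos hN0 _) (hq q (hWS h) (Finset.ne_of_mem_erase h))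
    rwa [Real.log_rpow hN0] at h1
  have hl0 : az * Real.log N ≤ Real.log q₀ := by
    have h1 := Real.log_le_log (Real.rpow_pos_of_pos hN0 _) hz
    rwa [Real.log_rpow hN0] at h1
  have hq0pos : (0 : ℝ) < q₀ := by exact_mod_cast hpos q₀ hq0
  have hl1 : Real.log q₀ < ay * Real.log N := by
    have h1 := Real.log_lt_log hq0pos hy
    rwa [Real.log_rpow hN0] at h1
  have hloga : Real.log a = ∑ q ∈ W, Real.log q + Real.log q₀ := by
    rw [hW, Finset.sum_erase_add _ _ hq0]
    conv_lhs => rw [← Nat.prod_primeFactors_of_squarefree hsq]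
    rw [Nat.cast_prod, Real.log_prod (fun q h => by exact_mod_cast (hpos q h).ne')]
  have hlogle : Real.log a ≤ 3 * Real.log N + Real.log 3 := by
    have ha0 : (0 : ℝ) < a := by
      have : 0 < a := by omega
      exact_mod_cast this
    have h1 : (a : ℝ) ≤ 3 * (N : ℝ) ^ 3 := by exact_mod_cast ha2
    have h2 := Real.log_le_log ha0 h1
    rw [Real.log_mul (by norm_num) (by positivity), Real.log_pow] at h2
    push_cast at h2
    linarith
  obtain ⟨s, hs⟩ : ∃ s, #a.primeFactors = s + 1 + 1 := ⟨#a.primeFactors - 2, by omega⟩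
  have h2s : 2 ≤ s := by omega
  have hWc : #W = s + 1 := by
    rw [hW, Finset.card_erase_of_mem hq0, hs]
    omega
  have hsum : ∀ V : Finset ℕ, V ⊆ W → (#V : ℝ) * (ay * Real.log N) ≤ ∑ q ∈ V, Real.log q := by
    intro V hV
    rw [← nsmul_eq_mul]
    exact Finset.card_nsmul_le_sum _ _ _ fun q h => hlq q (hV h)
  have hs4 : s ≤ 4 := by
    have h1 := hsum W (Finset.Subset.refl _)
    rw [hWc] at h1
    by_contra hcon
    have h6 : (6 : ℝ) ≤ ((s + 1 : ℕ) : ℝ) := by
      have : 6 ≤ s + 1 := by omega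
      exact_mod_cast this
    have h7 : 6 * (ay * Real.log N) ≤ ((s + 1 : ℕ) : ℝ) * (ay * Real.log N) := by
      refine mul_le_mul_of_nonneg_right h6 ?_
      rw [hay]
      positivity
    have h8 := hl0
    rw [haz] at h8
    rw [hay] at h7 h1
    linarith
  -- the largest prime
  obtain ⟨P, hP, hPmax⟩ := Finset.exists_max_image W (fun q => q) (by
    rw [← Finset.card_pos, hWc]
    omega)
  set U := W.erase P with hU
  have hUW : U ⊆ W := Finset.erase_subset _ _
  have hUc : #U = s := by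
    rw [hU, Finset.card_erase_of_mem hP, hWc]
    omega
  have hUsum : ∑ q ∈ U, Real.log q + Real.log P = ∑ q ∈ W, Real.log q := by
    rw [hU]
    exact Finset.sum_erase_add _ _ hP
  have hlP : ∀ q ∈ W, Real.log q ≤ Real.log P := by
    intro q h
    exact Real.log_le_log (by exact_mod_cast hpos q (hWS h)) (by exact_mod_cast hPmax q h)
  have hl0P : Real.log q₀ ≤ Real.log P := by
    have h1 := hlq P hP
    linarith
  have hHN : 0 < hX (s + 1) := CM1_hX_pos _
  have hH0 : (0 : ℝ) < hX (s + 1) := by exact_mod_cast hHN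
  have hH2 : (hX (s + 1) : ℝ) ≤ 232 := by exact_mod_cast CM1_hX_le _
  -- the cells
  have hyc : (yX (s + 1) : ℝ) * 3 ≤ ay * (hX (s + 1) : ℝ) ∧ ay * (hX (s + 1) : ℝ) ≤ ((yX (s + 1) : ℝ) + 1) * 3 ∧
      (zX (s + 1) : ℝ) * 3 ≤ az * (hX (s + 1) : ℝ) := by
    rw [hay, haz]
    unfold yX hX zX
    split_ifs <;> norm_num
  have hcy : ∀ q ∈ W, yX (s + 1) ≤ CM1_ce (hX (s + 1)) N q := by
    intro q h
    unfold CM1_ce
    have h0 := hlnn q (hWS h)
    rw [Nat.le_floor_iff (by positivity), le_div_iff₀ (by positivity)]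
    have h1 := hlq q h
    have h2 := hyc.1
    calc (yX (s + 1) : ℝ) * (3 * Real.log N) = ((yX (s + 1) : ℝ) * 3) * Real.log N := by ring
      _ ≤ (ay * (hX (s + 1) : ℝ)) * Real.log N := mul_le_mul_of_nonneg_right h2 hL.le
      _ = (hX (s + 1) : ℝ) * (ay * Real.log N) := by ring
      _ ≤ (hX (s + 1) : ℝ) * Real.log q := mul_le_mul_of_nonneg_left h1 hH0.le
  have hc0 : zX (s + 1) ≤ CM1_ce (hX (s + 1)) N q₀ ∧ CM1_ce (hX (s + 1)) N q₀ < yX (s + 1) + 1 := by
    have hnn := hlnn q₀ hq0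
    constructor
    · unfold CM1_ce
      rw [Nat.le_floor_iff (by positivity), le_div_iff₀ (by positivity)]
      calc (zX (s + 1) : ℝ) * (3 * Real.log N) = ((zX (s + 1) : ℝ) * 3) * Real.log N := by ring
        _ ≤ (az * (hX (s + 1) : ℝ)) * Real.log N := mul_le_mul_of_nonneg_right hyc.2.2 hL.le
        _ = (hX (s + 1) : ℝ) * (az * Real.log N) := by ring
        _ ≤ (hX (s + 1) : ℝ) * Real.log q₀ := mul_le_mul_of_nonneg_left hl0 hH0.le
    · unfold CM1_ce
      rw [Nat.floor_lt (by positivity), div_lt_iff₀ (by positivity)]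
      push_cast
      calc (hX (s + 1) : ℝ) * Real.log q₀ < (hX (s + 1) : ℝ) * (ay * Real.log N) :=
            mul_lt_mul_of_pos_left hl1 hH0
        _ = (ay * (hX (s + 1) : ℝ)) * Real.log N := by ring
        _ ≤ (((yX (s + 1) : ℝ) + 1) * 3) * Real.log N := mul_le_mul_of_nonneg_right hyc.2.1 hL.le
        _ = ((yX (s + 1) : ℝ) + 1) * (3 * Real.log N) := by ring
  have hcH : ∀ q ∈ U, CM1_ce (hX (s + 1)) N q < hX (s + 1) := by
    intro q h
    unfold CM1_ce
    have h0 := hlnn q (hWS (hUW h))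
    rw [Nat.floor_lt (by positivity), div_lt_iff₀ (by positivity)]
    refine mul_lt_mul_of_pos_left ?_ hH0
    have h1 : Real.log q ≤ ∑ q ∈ U, Real.log q :=
      Finset.single_le_sum (f := fun q : ℕ => Real.log (q : ℝ)) (fun q' h' => hlnn q' (hWS (hUW h'))) h
    have h2 := hlP q (hUW h)
    have h4 := hlnn q₀ hq0
    linarith
  -- sums of logarithms
  have hU0 : U ⊆ a.primeFactors.erase q₀ := hUW
  have hslog : ∀ e : Fin s ↪ U, ∑ i, Real.log ((Pool.Agent.EC.CM1_G s hq0 hU0 e i : ℕ) : ℝ) + Real.log P ≤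
      3 * Real.log N + Real.log 3 := by
    intro e
    have h1 : ∑ i, Real.log ((e i : ℕ) : ℝ) ≤ ∑ q ∈ U, Real.log q := by
      have hinj : Function.Injective fun i => (e i : ℕ) := fun i i' h => e.injective (Subtype.ext h)
      have h2 : ∑ i, Real.log ((e i : ℕ) : ℝ) = ∑ q ∈ univ.image fun i => (e i : ℕ), Real.log q := by
        rw [Finset.sum_image (fun i _ i' _ h => hinj h)]
      rw [h2]
      refine Finset.sum_le_sum_of_subset_of_nonneg ?_ ?_
      · intro q hq'
        obtain ⟨i, _, rfl⟩ := Finset.mem_image.mp hq'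
        exact (e i).2
      · intro q hq' _
        exact hlnn q (hWS (hUW hq'))
    rw [Fin.sum_univ_succ]
    have h3 : ∑ i : Fin s, Real.log ((Pool.Agent.EC.CM1_G s hq0 hU0 e i.succ : ℕ) : ℝ) =
        ∑ i, Real.log ((e i : ℕ) : ℝ) := rfl
    have h5 : Real.log ((Pool.Agent.EC.CM1_G s hq0 hU0 e 0 : ℕ) : ℝ) = Real.log q₀ := rfl
    rw [h3, h5]
    linarith
  have hlGP : ∀ (e : Fin s ↪ U) (i : Fin (s + 1)),
      Real.log ((Pool.Agent.EC.CM1_G s hq0 hU0 e i : ℕ) : ℝ) ≤ Real.log P := by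
    intro e i
    refine Fin.cases ?_ (fun i => ?_) i
    · exact hl0P
    · exact hlP (e i : ℕ) (hUW (e i).2)
  set T : Finset (Fin (s + 1) ↪ a.primeFactors) := univ.image (Pool.Agent.EC.CM1_G s hq0 hU0) with hT
  have hTc : #T = s.factorial := by
    rw [hT, Finset.card_image_of_injective _ (Pool.Agent.EC.CM1_G_inj s hq0 hU0), Finset.card_univ]
    rw [Fintype.card_embedding_eq, Fintype.card_fin, Fintype.card_coe, hUc, Nat.descFactorial_self]
  have hmain := CM1_sum N a (s + 1) hN2 ha1 hsq hs (by omega) (by omega) true T (by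
    intro g hg
    obtain ⟨e, _, rfl⟩ := Finset.mem_image.mp hg
    unfold JX
    refine Finset.mem_filter.mpr ⟨?_, ?_⟩
    · rw [Fintype.mem_piFinset]
      intro i
      refine Fin.cases ?_ (fun i => ?_) i
      · have h2 : true = true ∧ (0 : Fin (s + 1)).val = 0 := ⟨rfl, rfl⟩
        rw [if_pos h2, Finset.mem_Ico]
        exact hc0
      · have h2 : ¬ (true = true ∧ (Fin.succ i).val = 0) := by simp
        rw [if_neg h2, Finset.mem_Ico]
        exact ⟨hcy _ (hUW (e i).2), hcH _ (e i).2⟩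
    · intro i
      have hfl : ∀ k : Fin (s + 1), ((CM1_ce (hX (s + 1)) N (Pool.Agent.EC.CM1_G s hq0 hU0 e k : ℕ) : ℕ) : ℝ) ≤
          (hX (s + 1) : ℝ) * Real.log ((Pool.Agent.EC.CM1_G s hq0 hU0 e k : ℕ) : ℝ) / (3 * Real.log N) := by
        intro k
        unfold CM1_ce
        have h0 := hlnn _ (Pool.Agent.EC.CM1_G s hq0 hU0 e k).2
        exact Nat.floor_le (by positivity)
      have h1 : ((CM1_ce (hX (s + 1)) N (Pool.Agent.EC.CM1_G s hq0 hU0 e i : ℕ) +
          ∑ k, CM1_ce (hX (s + 1)) N (Pool.Agent.EC.CM1_G s hq0 hU0 e k : ℕ) : ℕ) : ℝ) <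
          ((hX (s + 1) + 1 : ℕ) : ℝ) := by
        push_cast
        have h2 : ∑ k, ((CM1_ce (hX (s + 1)) N (Pool.Agent.EC.CM1_G s hq0 hU0 e k : ℕ) : ℕ) : ℝ) ≤
            ∑ k, (hX (s + 1) : ℝ) * Real.log ((Pool.Agent.EC.CM1_G s hq0 hU0 e k : ℕ) : ℝ) / (3 * Real.log N) :=
          Finset.sum_le_sum fun k _ => hfl k
        rw [← Finset.sum_div, ← Finset.mul_sum] at h2
        have h4 := hfl i
        have h5 := hslog e
        have h6 := hlGP e i
        have h7 : (hX (s + 1) : ℝ) * Real.log ((Pool.Agent.EC.CM1_G s hq0 hU0 e i : ℕ) : ℝ) / (3 * Real.log N) +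
            (hX (s + 1) : ℝ) * (∑ k, Real.log ((Pool.Agent.EC.CM1_G s hq0 hU0 e k : ℕ) : ℝ)) / (3 * Real.log N) <
            (hX (s + 1) : ℝ) + 1 := by
          rw [← add_div, ← mul_add, div_lt_iff₀ (by positivity)]
          calc (hX (s + 1) : ℝ) * (Real.log ((Pool.Agent.EC.CM1_G s hq0 hU0 e i : ℕ) : ℝ) +
                ∑ k, Real.log ((Pool.Agent.EC.CM1_G s hq0 hU0 e k : ℕ) : ℝ)) ≤
                (hX (s + 1) : ℝ) * (3 * Real.log N + Real.log 3) :=
                mul_le_mul_of_nonneg_left (by linarith) hH0.le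
            _ = (hX (s + 1) : ℝ) * (3 * Real.log N) + (hX (s + 1) : ℝ) * Real.log 3 := by ring
            _ ≤ (hX (s + 1) : ℝ) * (3 * Real.log N) + 232 * Real.log 3 := by
                have := mul_le_mul_of_nonneg_right hH2 h3p.le
                linarith
            _ < ((hX (s + 1) : ℝ) + 1) * (3 * Real.log N) := by
                rw [add_mul, one_mul]
                linarith
        linarith
      have h8 : CM1_ce (hX (s + 1)) N (Pool.Agent.EC.CM1_G s hq0 hU0 e i : ℕ) +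
          ∑ k, CM1_ce (hX (s + 1)) N (Pool.Agent.EC.CM1_G s hq0 hU0 e k : ℕ) < hX (s + 1) + 1 := by
        exact_mod_cast h1
      exact Nat.lt_succ_iff.mp h8)
  rw [hTc] at hmain
  refine le_trans (le_of_eq ?_) hmain
  unfold om
  rw [if_pos rfl, Nat.add_sub_cancel]
  have hf : (0 : ℝ) < (s.factorial : ℝ) := by exact_mod_cast s.factorial_pos
  field_simp

end Pool.Agent.XE
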